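import Pool.Agent.H539R3.KC.Main

/-!
# Canonical models and the Kripke criterion for logics of bounded branching
-/

set_option autoImplicit false

namespace Pool.Agent.Y555.KC

open H539R3.IEP H539R3.IEP.Form H539R3.KC

universe u

/-! ### Boolean valuations -/

/-- a truth assignment to formulas which respects the Boolean connectives -/
def Bv (h : Form → Prop) : Prop := ¬ h bot ∧ ∀ b c, h (imp b c) ↔ (h b → h c)

section bv
variable {h : Form → Prop} (hh : Bv h)
include hh

theorem bv_neg (a : Form) : h (neg a) ↔ ¬ h a := by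
  unfold neg
  rw [hh.2]
  exact ⟨fun h1 h2 => hh.1 (h1 h2), fun h1 h2 => absurd h2 h1⟩

theorem bv_and (a b : Form) : h (Form.and a b) ↔ (h a ∧ h b) := by
  unfold Form.and
  rw [bv_neg hh, hh.2, bv_neg hh]
  tauto

theorem bv_or (a b : Form) : h (Form.or a b) ↔ (h a ∨ h b) := by
  unfold Form.or
  rw [hh.2, bv_neg hh]
  tauto

theorem bv_bigAnd (l : List Form) : h (bigAnd l) ↔ ∀ a, a ∈ l → h a := by
  induction l with
  | nil =>
    unfold bigAnd top
    rw [bv_neg hh]
    simp [hh.1]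
  | cons a l ih => rw [bigAnd, bv_and hh, ih]; simp

theorem bv_foldr (l : List Form) (a : Form) :
    h (l.foldr imp a) ↔ ((∀ b, b ∈ l → h b) → h a) := by
  induction l with
  | nil => simp
  | cons b l ih =>
    rw [List.foldr_cons, hh.2, ih]
    simp only [List.mem_cons, forall_eq_or_imp]
    tauto

end bv

theorem taut_of {a : Form} (h : ∀ v : Form → Prop, Bv v → v a) : Tautology a :=
  fun v h1 h2 => h v ⟨h1, h2⟩

section logic
variable {L : Set Form} (hL : Normal L)
include hL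

theorem mem_taut {a : Form} (h : ∀ v : Form → Prop, Bv v → v a) : a ∈ L := hL.taut a (taut_of h)

theorem mp1 {a b : Form} (ha : a ∈ L) (h : ∀ v : Form → Prop, Bv v → v a → v b) : b ∈ L :=
  hL.mp a b (mem_taut hL fun v hv => (hv.2 _ _).2 (h v hv)) ha

theorem mp2 {a b c : Form} (ha : a ∈ L) (hb : b ∈ L)
    (h : ∀ v : Form → Prop, Bv v → v a → v b → v c) : c ∈ L :=
  hL.mp b c (mp1 hL ha fun v hv h1 => (hv.2 _ _).2 (h v hv h1)) hb

theorem memK (a b : Form) : imp (box (imp a b)) (imp (box a) (box b)) ∈ L := by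
  have h := hL.subst (fun i => if i = 0 then a else b) _ hL.axK
  simpa [Form.subst] using h

theorem box_foldr (l : List Form) (a : Form) :
    imp (box (l.foldr imp a)) ((l.map box).foldr imp (box a)) ∈ L := by
  induction l with
  | nil => exact mem_taut hL fun v hv => (hv.2 _ _).2 fun h => h
  | cons b l ih =>
    refine mp2 hL (memK hL b (l.foldr imp a)) ih fun v hv h1 h2 => ?_
    rw [List.foldr_cons, List.map_cons, List.foldr_cons, hv.2, hv.2]
    rw [hv.2, hv.2] at h1
    rw [hv.2] at h2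
    exact fun h3 h4 => h2 (h1 h3 h4)

end logic

/-! ### Derivations -/

/-- `a` is derivable from `Γ` in `L` -/
def Dv (L Γ : Set Form) (a : Form) : Prop := ∃ l : List Form, (∀ b, b ∈ l → b ∈ Γ) ∧ l.foldr imp a ∈ L

theorem con_iff (L Γ : Set Form) : Consistent L Γ ↔ ¬ Dv L Γ bot := by
  constructor
  · rintro h ⟨l, h1, h2⟩
    exact h l h1 h2
  · intro h l h1 h2
    exact h ⟨l, h1, h2⟩

section dv
variable {L : Set Form} (hL : Normal L)
include hL

theorem dv_mem {Γ : Set Form} {a : Form} (h : a ∈ Γ) : Dv L Γ a :=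
  ⟨[a], by simpa using h, mem_taut hL fun v hv => (hv.2 _ _).2 fun h => h⟩

omit hL in
theorem dv_log {Γ : Set Form} {a : Form} (h : a ∈ L) : Dv L Γ a := ⟨[], by simp, h⟩

omit hL in
theorem Dv.mono {Γ Γ' : Set Form} {a : Form} (h : Dv L Γ a) (hs : Γ ⊆ Γ') : Dv L Γ' a := by
  obtain ⟨l, h1, h2⟩ := h
  exact ⟨l, fun b hb => hs (h1 b hb), h2⟩

theorem dv1 {Γ : Set Form} {a b : Form} (ha : Dv L Γ a)
    (h : ∀ v : Form → Prop, Bv v → v a → v b) : Dv L Γ b := by
  obtain ⟨l, h1, h2⟩ := ha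
  refine ⟨l, h1, mp1 hL h2 fun v hv h3 => ?_⟩
  rw [bv_foldr hv] at h3 ⊢
  exact fun h4 => h v hv (h3 h4)

theorem dv2 {Γ : Set Form} {a b c : Form} (ha : Dv L Γ a) (hb : Dv L Γ b)
    (h : ∀ v : Form → Prop, Bv v → v a → v b → v c) : Dv L Γ c := by
  obtain ⟨l, h1, h2⟩ := ha
  obtain ⟨l', h1', h2'⟩ := hb
  refine ⟨l ++ l', ?_, mp2 hL h2 h2' fun v hv h3 h4 => ?_⟩
  · intro d hd
    rcases List.mem_append.1 hd with h | h
    · exact h1 d h
    · exact h1' d h
  · rw [bv_foldr hv] at h3 h4 ⊢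
    intro h5
    exact h v hv (h3 fun b hb => h5 b (List.mem_append.2 (Or.inl hb)))
      (h4 fun b hb => h5 b (List.mem_append.2 (Or.inr hb)))

/-- derivations from a union -/
theorem dv_union {Γ Δ : Set Form} {a : Form} (ha : Dv L (Γ ∪ Δ) a) :
    ∃ l : List Form, (∀ b, b ∈ l → b ∈ Δ) ∧ Dv L Γ (imp (bigAnd l) a) := by
  classical
  obtain ⟨l, h1, h2⟩ := ha
  refine ⟨l.filter (fun b => b ∈ Δ), fun b hb => by simpa using (List.mem_filter.1 hb).2,
    l.filter (fun b => b ∈ Γ), fun b hb => by simpa using (List.mem_filter.1 hb).2,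
    mp1 hL h2 fun v hv h3 => ?_⟩
  rw [bv_foldr hv] at h3 ⊢
  rw [hv.2, bv_bigAnd hv]
  intro h4 h5
  refine h3 fun b hb => ?_
  rcases h1 b hb with h | h
  · exact h4 b (List.mem_filter.2 ⟨hb, by simpa using h⟩)
  · exact h5 b (List.mem_filter.2 ⟨hb, by simpa using h⟩)

theorem dv_insert {Γ : Set Form} {a b : Form} (h : Dv L (insert a Γ) b) : Dv L Γ (imp a b) := by
  have h1 : Dv L (Γ ∪ {a}) b := h.mono (by rw [Set.union_singleton])
  obtain ⟨l, h2, h3⟩ := dv_union hL h1
  refine dv1 hL h3 fun v hv h4 => ?_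
  rw [hv.2] at h4 ⊢
  rw [bv_bigAnd hv] at h4
  intro h5
  refine h4 fun c hc => ?_
  have : c = a := h2 c hc
  rwa [this]

end dv

/-! ### Maximal consistent sets -/

/-- maximal consistent sets -/
def Mcs (L u : Set Form) : Prop := Consistent L u ∧ ∀ a, a ∉ u → ¬ Consistent L (insert a u)

/-- Lindenbaum's lemma -/
theorem lind {L Γ : Set Form} (h : Consistent L Γ) : ∃ u, Γ ⊆ u ∧ Mcs L u := by
  obtain ⟨u, hu1, hu2⟩ := zorn_subset_nonempty {u : Set Form | Consistent L u} (by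
    intro c hc hchain hne
    refine ⟨⋃₀ c, ?_, fun s hs => Set.subset_sUnion_of_mem hs⟩
    intro l hl hmem
    -- a finite subset lies in one member
    have key : ∀ l : List Form, (∀ a, a ∈ l → a ∈ ⋃₀ c) → ∃ s ∈ c, ∀ a, a ∈ l → a ∈ s := by
      intro l
      induction l with
      | nil =>
        intro _
        obtain ⟨s, hs⟩ := hne
        exact ⟨s, hs, by simp⟩
      | cons a l ih =>
        intro h1
        obtain ⟨s, hs, h2⟩ := ih fun b hb => h1 b (by simp [hb])
        obtain ⟨t, ht, h3⟩ := h1 a (by simp)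
        rcases hchain.total hs ht with h4 | h4
        · refine ⟨t, ht, fun b hb => ?_⟩
          rcases List.mem_cons.1 hb with rfl | hb
          · exact h3
          · exact h4 (h2 b hb)
        · refine ⟨s, hs, fun b hb => ?_⟩
          rcases List.mem_cons.1 hb with rfl | hb
          · exact h4 h3
          · exact h2 b hb
    obtain ⟨s, hs, h1⟩ := key l hl
    exact hc hs l h1 hmem) Γ h
  refine ⟨u, hu1, hu2.prop, fun a ha hcon => ha ?_⟩
  exact hu2.le_of_ge hcon (Set.subset_insert a u) (Set.mem_insert a u)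

section mcs
variable {L : Set Form} (hL : Normal L) {u : Set Form} (hu : Mcs L u)
include hL hu

theorem mcs_dv {a : Form} (h : Dv L u a) : a ∈ u := by
  by_contra ha
  have h1 := hu.2 a ha
  rw [con_iff, not_not] at h1
  have h2 := dv_insert hL h1
  refine (con_iff L u).1 hu.1 (dv2 hL h2 h fun v hv h3 h4 => ?_)
  exact (hv.2 _ _).1 h3 h4

omit hL in
theorem mcs_bot (hL : Normal L) : bot ∉ u := fun h => (con_iff L u).1 hu.1 (dv_mem hL h)

theorem mcs_log {a : Form} (h : a ∈ L) : a ∈ u := mcs_dv hL hu (dv_log h)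

theorem mcs_neg {a : Form} : neg a ∈ u ↔ a ∉ u := by
  constructor
  · intro h1 h2
    refine (con_iff L u).1 hu.1 (dv2 hL (dv_mem hL h1) (dv_mem hL h2) fun v hv h3 h4 => ?_)
    exact absurd h4 ((bv_neg hv a).1 h3)
  · intro h
    have h1 := hu.2 a h
    rw [con_iff, not_not] at h1
    exact mcs_dv hL hu (dv_insert hL h1)

theorem mcs_imp {a b : Form} : imp a b ∈ u ↔ (a ∈ u → b ∈ u) := by
  constructor
  · intro h1 h2
    exact mcs_dv hL hu (dv2 hL (dv_mem hL h1) (dv_mem hL h2) fun v hv h3 h4 => (hv.2 _ _).1 h3 h4)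
  · intro h
    by_cases ha : a ∈ u
    · exact mcs_dv hL hu (dv1 hL (dv_mem hL (h ha)) fun v hv h3 => (hv.2 _ _).2 fun _ => h3)
    · refine mcs_dv hL hu (dv1 hL (dv_mem hL ((mcs_neg hL hu).2 ha)) fun v hv h3 => ?_)
      exact (hv.2 _ _).2 fun h4 => absurd h4 ((bv_neg hv a).1 h3)

theorem mcs_bv : Bv (fun a => a ∈ u) := ⟨mcs_bot hu hL, fun _ _ => mcs_imp hL hu⟩

/-- boxed consequences -/
theorem mcs_box {a : Form} (h : Dv L {b | box b ∈ u} a) : box a ∈ u := by
  obtain ⟨l, h1, h2⟩ := h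
  have h3 := hL.mp _ _ (box_foldr hL l a) (hL.nec _ h2)
  refine mcs_dv hL hu ⟨l.map box, fun b hb => ?_, h3⟩
  obtain ⟨c, hc, rfl⟩ := List.mem_map.1 hb
  exact h1 c hc

end mcs

/-! ### The canonical frame -/

/-- the worlds of the canonical frame -/
def CW (L : Set Form) : Type := {u : Set Form // Mcs L u}

/-- the canonical relation -/
def CR (L : Set Form) (u v : CW L) : Prop := ∀ b, box b ∈ u.1 → b ∈ v.1

/-- the canonical valuation -/
def CV (L : Set Form) (i : ℕ) (u : CW L) : Prop := var i ∈ u.1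

section can
variable {L : Set Form} (hL : Normal L)
include hL

theorem exists_succ (u : CW L) {Δ : Set Form}
    (h : ∀ l : List Form, (∀ b, b ∈ l → b ∈ Δ) → box (neg (bigAnd l)) ∉ u.1) :
    ∃ v : CW L, CR L u v ∧ Δ ⊆ v.1 := by
  have hcon : Consistent L ({b | box b ∈ u.1} ∪ Δ) := by
    rw [con_iff]
    intro hd
    obtain ⟨l, h1, h2⟩ := dv_union hL hd
    exact h l h1 (mcs_box hL u.2 h2)
  obtain ⟨v, hv1, hv2⟩ := lind hcon
  exact ⟨⟨v, hv2⟩, fun b hb => hv1 (Or.inl hb), fun b hb => hv1 (Or.inr hb)⟩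

theorem exists_succ1 (u : CW L) {a : Form} (h : box a ∉ u.1) : ∃ v : CW L, CR L u v ∧ a ∉ v.1 := by
  obtain ⟨v, hv1, hv2⟩ := exists_succ hL u (Δ := {neg a}) (by
    intro l hl hbox
    apply h
    refine mcs_box hL u.2 (dv1 hL (dv_mem hL (Γ := {b | box b ∈ u.1}) hbox) fun v hv h1 => ?_)
    rw [bv_neg hv, bv_bigAnd hv] at h1
    by_contra h2
    apply h1
    intro c hc
    have : c = neg a := hl c hc
    rw [this, bv_neg hv]
    exact h2)
  exact ⟨v, hv1, (mcs_neg hL v.2).1 (hv2 rfl)⟩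

/-- the truth lemma -/
theorem truth (a : Form) : ∀ u : CW L, Sat (CR L) (CV L) a u ↔ a ∈ u.1 := by
  induction a with
  | var i => intro u; exact Iff.rfl
  | bot => intro u; exact ⟨fun h => h.elim, fun h => mcs_bot u.2 hL h⟩
  | imp a b iha ihb =>
    intro u
    rw [mcs_imp hL u.2, ← iha u, ← ihb u]
    exact Iff.rfl
  | box a ih =>
    intro u
    constructor
    · intro h
      by_contra hn
      obtain ⟨v, hv1, hv2⟩ := exists_succ1 hL u hn
      exact hv2 ((ih v).1 (h v hv1))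
    · intro h v hv
      exact (ih v).2 (hv a h)

/-- separation of a point from a finite set -/
theorem sep1 (x : CW L) (X : Finset (CW L)) (hx : x ∉ X) :
    ∃ c, c ∈ x.1 ∧ ∀ z ∈ X, c ∉ z.1 := by
  classical
  induction X using Finset.induction_on with
  | empty => exact ⟨top, mcs_log hL x.2 (mem_taut hL fun v hv => (bv_neg hv bot).2 hv.1), by simp⟩
  | insert z X hz ih =>
    obtain ⟨c, hc1, hc2⟩ := ih fun h => hx (Finset.mem_insert_of_mem h)
    have hne : x ≠ z := fun h => hx (by rw [h]; exact Finset.mem_insert_self _ _)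
    have : ∃ d, d ∈ x.1 ∧ d ∉ z.1 := by
      by_contra hcon
      push Not at hcon
      apply hne
      apply Subtype.ext
      refine Set.Subset.antisymm hcon fun d hd => ?_
      by_contra hd2
      exact (mcs_neg hL z.2).1 (hcon _ ((mcs_neg hL x.2).2 hd2)) hd
    obtain ⟨d, hd1, hd2⟩ := this
    refine ⟨Form.and c d, (bv_and (mcs_bv hL x.2) c d).2 ⟨hc1, hd1⟩, fun w hw hw2 => ?_⟩
    have h3 := (bv_and (mcs_bv hL w.2) c d).1 hw2
    rcases Finset.mem_insert.1 hw with rfl | hw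
    · exact hd2 h3.2
    · exact hc2 w hw h3.1

/-- every subset of a finite set is cut out by a formula -/
theorem sep (X : Finset (CW L)) (A : CW L → Prop) : ∃ c, ∀ z ∈ X, (c ∈ z.1 ↔ A z) := by
  classical
  induction X using Finset.induction_on with
  | empty => exact ⟨top, by simp⟩
  | insert x X hx ih =>
    obtain ⟨c, hc⟩ := ih
    obtain ⟨d, hd1, hd2⟩ := sep1 hL x X hx
    by_cases hA : A x
    · refine ⟨Form.or c d, fun z hz => ?_⟩
      have h1 := bv_or (mcs_bv hL z.2) c d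
      rcases Finset.mem_insert.1 hz with rfl | hz
      · exact ⟨fun _ => hA, fun _ => h1.2 (Or.inr hd1)⟩
      · rw [show (Form.or c d ∈ z.1 ↔ (c ∈ z.1 ∨ d ∈ z.1)) from h1, hc z hz]
        exact ⟨fun h => h.resolve_right (hd2 z hz), Or.inl⟩
    · refine ⟨Form.and c (neg d), fun z hz => ?_⟩
      have h1 := bv_and (mcs_bv hL z.2) c (neg d)
      have h2 := mcs_neg hL z.2 (a := d)
      rcases Finset.mem_insert.1 hz with rfl | hz
      · exact ⟨fun h => absurd hd1 (h2.1 (h1.1 h).2), fun h => absurd h hA⟩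
      · rw [show (Form.and c (neg d) ∈ z.1 ↔ (c ∈ z.1 ∧ neg d ∈ z.1)) from h1, h2, hc z hz]
        exact ⟨fun h => h.1, fun h => ⟨h, hd2 z hz⟩⟩

end can

/-! ### Bounded branching -/

/-- among `p_0, …, p_n` only `p_i` is true -/
def atm (n i : ℕ) : Form :=
  bigAnd ((List.range (n + 1)).map fun j => if j = i then var j else neg (var j))

/-- the formula which says that every point has at most `n` successors -/
def alt (n : ℕ) : Form := neg (bigAnd ((List.range (n + 1)).map fun i => dia (atm n i)))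

section satb
variable {W : Type u} {R : W → W → Prop} {V : ℕ → W → Prop} {w : W}

theorem sat_bv (R : W → W → Prop) (V : ℕ → W → Prop) (w : W) : Bv (fun a => Sat R V a w) :=
  ⟨fun h => h, fun _ _ => Iff.rfl⟩

theorem sat_atm (n i : ℕ) : Sat R V (atm n i) w ↔ ∀ j ≤ n, (V j w ↔ j = i) := by
  unfold atm
  rw [show (Sat R V (bigAnd _) w ↔ _) from bv_bigAnd (sat_bv R V w) _]
  constructor
  · intro h j hj
    have h1 := h _ (List.mem_map.2 ⟨j, List.mem_range.2 (by omega), rfl⟩)
    split_ifs at h1 with h2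
    · exact ⟨fun _ => h2, fun _ => h1⟩
    · exact ⟨fun h3 => absurd h3 h1, fun h3 => absurd h3 h2⟩
  · intro h a ha
    obtain ⟨j, hj, rfl⟩ := List.mem_map.1 ha
    have hj' : j ≤ n := by have := List.mem_range.1 hj; omega
    split_ifs with h2
    · exact (h j hj').2 h2
    · intro h3
      exact h2 ((h j hj').1 h3)

theorem sat_alt (n : ℕ) : ¬ Sat R V (alt n) w ↔
    ∀ i ≤ n, ∃ y, R w y ∧ ∀ j ≤ n, (V j y ↔ j = i) := by
  have h0 : ¬ Sat R V (alt n) w ↔
      Sat R V (bigAnd ((List.range (n + 1)).map fun i => dia (atm n i))) w := by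
    unfold alt
    rw [sat_neg, not_not]
  rw [h0, show (Sat R V (bigAnd _) w ↔ _) from bv_bigAnd (sat_bv R V w) _]
  constructor
  · intro h i hi
    have h1 := h _ (List.mem_map.2 ⟨i, List.mem_range.2 (by omega), rfl⟩)
    obtain ⟨y, hy1, hy2⟩ := sat_dia.1 h1
    exact ⟨y, hy1, (sat_atm n i).1 hy2⟩
  · intro h a ha
    obtain ⟨i, hi, rfl⟩ := List.mem_map.1 ha
    obtain ⟨y, hy1, hy2⟩ := h i (by have := List.mem_range.1 hi; omega)
    exact sat_dia.2 ⟨y, hy1, (sat_atm n i).2 hy2⟩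

/-- the formula `alt n` is valid if no point has `n + 1` different successors -/
theorem alt_valid (n : ℕ) (h : ∀ f : Fin (n + 1) → W, (∀ i, R w (f i)) → ¬ Function.Injective f) :
    Sat R V (alt n) w := by
  by_contra hn
  have h1 := (sat_alt n).1 hn
  choose f hf1 hf2 using h1
  refine h (fun i => f i.1 (by omega)) (fun i => hf1 _ _) fun i j hij => ?_
  have h2 := (hf2 i.1 (by omega) i.1 (by omega)).2 rfl
  have hij' : f i.1 (by omega) = f j.1 (by omega) := hij
  rw [hij'] at h2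
  exact Fin.ext ((hf2 j.1 (by omega) i.1 (by omega)).1 h2)

end satb

section alt
variable {L : Set Form} (hL : Normal L) {n : ℕ} (hn : alt n ∈ L)
include hL hn

theorem card_succ (x : CW L) (t : Finset (CW L)) (ht : ∀ y ∈ t, CR L x y) : t.card ≠ n + 1 := by
  classical
  intro hc
  let e : Fin (n + 1) ≃ t := (Fintype.equivFinOfCardEq (by simpa using hc)).symm
  have h1 : ∀ i : ℕ, ∃ c, ∀ z ∈ t, (c ∈ z.1 ↔ ∃ h : i < n + 1, z = (e ⟨i, h⟩).1) := fun i =>
    sep hL t _
  choose s hs using h1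
  have h2 : (alt n).subst s ∈ x.1 := mcs_log hL x.2 (hL.subst s _ hn)
  rw [← truth hL, sat_subst] at h2
  revert h2
  rw [imp_false, sat_alt]
  intro i hi
  refine ⟨(e ⟨i, by omega⟩).1, ht _ (e _).2, fun j hj => ?_⟩
  rw [truth hL, hs j _ (e _).2]
  constructor
  · rintro ⟨h, h3⟩
    have h4 := e.injective (Subtype.ext h3)
    exact (Fin.mk.inj h4).symm
  · rintro rfl
    exact ⟨by omega, rfl⟩

theorem finite_succ (x : CW L) : {y | CR L x y}.Finite := by
  by_contra h
  obtain ⟨t, ht1, ht2⟩ := Set.Infinite.exists_subset_card_eq h (n + 1)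
  exact card_succ hL hn x t (fun y hy => ht1 hy) ht2

/-- truth depends on finitely many points -/
theorem locality (a : Form) : ∀ x : CW L, ∃ X : Finset (CW L), ∀ V V' : ℕ → CW L → Prop,
    (∀ i, ∀ y ∈ X, (V i y ↔ V' i y)) → (Sat (CR L) V a x ↔ Sat (CR L) V' a x) := by
  classical
  induction a with
  | var i => intro x; exact ⟨{x}, fun V V' h => h i x (by simp)⟩
  | bot => intro x; exact ⟨∅, fun V V' h => Iff.rfl⟩
  | imp a b iha ihb =>
    intro x
    obtain ⟨X, hX⟩ := iha x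
    obtain ⟨Y, hY⟩ := ihb x
    exact ⟨X ∪ Y, fun V V' h => imp_congr
      (hX V V' fun i y hy => h i y (Finset.mem_union_left _ hy))
      (hY V V' fun i y hy => h i y (Finset.mem_union_right _ hy))⟩
  | box a ih =>
    intro x
    choose X hX using ih
    refine ⟨(finite_succ hL hn x).toFinset.biUnion X, fun V V' h => ?_⟩
    refine forall_congr' fun y => ?_
    constructor
    · intro h1 hy
      refine (hX y V V' fun i z hz => h i z ?_).1 (h1 hy)
      exact Finset.mem_biUnion.2 ⟨y, (Set.Finite.mem_toFinset _).2 hy, hz⟩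
    · intro h1 hy
      refine (hX y V V' fun i z hz => h i z ?_).2 (h1 hy)
      exact Finset.mem_biUnion.2 ⟨y, (Set.Finite.mem_toFinset _).2 hy, hz⟩

/-- the canonical frame is a frame for `L` -/
theorem canonical : FrameFor L (CR L) := by
  intro a ha V x
  obtain ⟨X, hX⟩ := locality hL hn a x
  have h1 : ∀ i : ℕ, ∃ c, ∀ z ∈ X, (c ∈ z.1 ↔ V i z) := fun i => sep hL X _
  choose s hs using h1
  have h2 : a.subst s ∈ x.1 := mcs_log hL x.2 (hL.subst s _ ha)
  rw [← truth hL, sat_subst] at h2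
  refine (hX _ V fun i y hy => ?_).1 h2
  rw [truth hL]
  exact hs i y hy

end alt

/-! ### The Kripke criterion -/

/-- agreement on the formulas with variables in `σ` -/
def ZZ (L : Set Form) (σ : Set ℕ) (u v : CW L) : Prop := ∀ c : Form, c.vars ⊆ σ → (c ∈ u.1 ↔ c ∈ v.1)

section crit
variable {L : Set Form} (hL : Normal L)
include hL

theorem zz_of {σ : Set ℕ} {u v : CW L} (h : ∀ c : Form, c.vars ⊆ σ → c ∈ u.1 → c ∈ v.1) :
    ZZ L σ u v := by
  intro c hc
  refine ⟨h c hc, fun h1 => ?_⟩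
  by_contra h2
  have h3 := h (neg c) (by rw [vars_neg]; exact hc) ((mcs_neg hL u.2).2 h2)
  exact (mcs_neg hL v.2).1 h3 h1

theorem zz_forth {σ : Set ℕ} {u v u' : CW L} (h : ZZ L σ u v) (hu : CR L u u') :
    ∃ v', CR L v v' ∧ ZZ L σ u' v' := by
  obtain ⟨v', h1, h2⟩ := exists_succ hL v (Δ := {c | c.vars ⊆ σ ∧ c ∈ u'.1}) (by
    intro l hl hbox
    have hv : (box (neg (bigAnd l))).vars ⊆ σ := by
      show (neg (bigAnd l)).vars ⊆ σ
      rw [vars_neg]
      exact vars_bigAnd l fun a ha => (hl a ha).1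
    have h3 := hu _ ((h _ hv).2 hbox)
    refine (mcs_neg hL u'.2).1 h3 ((bv_bigAnd (mcs_bv hL u'.2) l).2 fun a ha => (hl a ha).2))
  exact ⟨v', h1, zz_of hL fun c hc hc2 => h2 ⟨hc, hc2⟩⟩

theorem zz_bisim (σ : Set ℕ) : Bisim σ (CR L) (CV L) (CR L) (CV L) (ZZ L σ) where
  atoms x y h i hi := h (var i) (fun j hj => by
    have : j = i := hj
    rwa [this])
  forth x y x' h hx := zz_forth hL h hx
  back x y y' h hy := by
    obtain ⟨x', h1, h2⟩ := zz_forth hL (fun c hc => (h c hc).symm) hy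
    exact ⟨x', h1, fun c hc => (h2 c hc).symm⟩

/-- the pair of maximal consistent sets -/
theorem exists_pair {a b : Form} (hno : ¬ HasInterpolant L a b) :
    ∃ u v : CW L, ZZ L (a.vars ∩ b.vars) u v ∧ a ∈ u.1 ∧ neg b ∈ v.1 := by
  set σ := a.vars ∩ b.vars with hσ
  have key : ∀ l : List Form, (∀ c, c ∈ l → imp a c ∈ L) → imp a (bigAnd l) ∈ L := by
    intro l
    induction l with
    | nil => intro _; exact mem_taut hL fun v hv => (hv.2 _ _).2 fun _ => (bv_neg hv bot).2 hv.1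
    | cons c l ih =>
      intro h
      refine mp2 hL (h c (by simp)) (ih fun d hd => h d (by simp [hd])) fun v hv h1 h2 => ?_
      rw [hv.2] at h1 h2 ⊢
      intro h3
      rw [bigAnd, bv_and hv]
      exact ⟨h1 h3, h2 h3⟩
  have hcon : Consistent L (insert (neg b) {c | c.vars ⊆ σ ∧ imp a c ∈ L}) := by
    rw [con_iff]
    intro hd
    obtain ⟨l, h1, h2⟩ := dv_insert hL hd
    refine hno ⟨bigAnd l, vars_bigAnd l fun c hc => (h1 c hc).1,
      key l fun c hc => (h1 c hc).2, mp1 hL h2 fun v hv h3 => ?_⟩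
    rw [bv_foldr hv, hv.2, bv_neg hv] at h3
    rw [hv.2, bv_bigAnd hv]
    intro h4
    by_contra h5
    exact hv.1 (h3 h4 h5)
  obtain ⟨v, hv1, hv2⟩ := lind hcon
  have hcon2 : Consistent L (insert a {c | c.vars ⊆ σ ∧ c ∈ v}) := by
    rw [con_iff]
    intro hd
    obtain ⟨l, h1, h2⟩ := dv_insert hL hd
    have h3 : neg (bigAnd l) ∈ v := hv1 (Or.inr ⟨by
      rw [vars_neg]
      exact vars_bigAnd l fun c hc => (h1 c hc).1, mp1 hL h2 fun w hw h3 => by
        rw [bv_foldr hw, hw.2] at h3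
        rw [hw.2, bv_neg hw, bv_bigAnd hw]
        intro h4 h5
        exact hw.1 (h3 h5 h4)⟩)
    exact (mcs_neg hL hv2).1 h3 ((bv_bigAnd (mcs_bv hL hv2) l).2 fun c hc => (h1 c hc).2)
  obtain ⟨u, hu1, hu2⟩ := lind hcon2
  refine ⟨⟨u, hu2⟩, ⟨v, hv2⟩, fun c hc => (zz_of hL (σ := σ) (u := ⟨v, hv2⟩) (v := ⟨u, hu2⟩)
    (fun c hc h => hu1 (Or.inr ⟨hc, h⟩)) c hc).symm, hu1 (Or.inl rfl), hv1 (Or.inl rfl)⟩

end crit

theorem frameFor_up {L : Set Form} {W : Type} {R : W → W → Prop} (h : FrameFor L R) :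
    FrameFor L (upR.{u} R) := by
  intro a ha V w
  rw [sat_up]
  exact h a ha _ _

/-- **Every normal extension of `K ⊕ alt n` has the Kripke criterion.** -/
theorem criterion_of_alt {L : Set Form} (hL : Normal L) {n : ℕ} (hn : alt n ∈ L) :
    KripkeCriterion.{u} L := by
  intro a b
  refine ⟨fun hno => ?_, not_hasInterpolant⟩
  obtain ⟨x, y, hxy, hx, hy⟩ := exists_pair hL hno
  have hF := canonical hL hn
  refine ⟨ULift (CW L), ULift (CW L), upR (CR L), fun i z => CV L i z.down, ULift.up x,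
    upR (CR L), fun i z => CV L i z.down, ULift.up y, fun z z' => ZZ L _ z.down z'.down,
    frameFor_up hF, frameFor_up hF, bisim_up (zz_bisim hL _), hxy, ?_, ?_⟩
  · rw [sat_up]; exact (truth hL a x).2 hx
  · rw [sat_up]; exact (truth hL (neg b) y).2 hy

end Pool.Agent.Y555.KC
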