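import Pool.Agent.Y555.KC.Can

/-!
# Intersections with the logic of finite irreflexive transitive frames
-/

set_option autoImplicit false

namespace Pool.Agent.Y555.KC

open H539R3.IEP H539R3.IEP.Form H539R3.KC

universe u

/-- The logic of all finite transitive irreflexive frames. -/
def GLf : Set Form := {a | ∀ M : GLModel, Sat M.R M.V a M.w}

theorem GLf_normal : Normal GLf where
  taut := fun _ ha M => ha (fun b => Sat M.R M.V b M.w) (fun h => h) (fun _ _ => Iff.rfl)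
  axK := fun _ h1 h2 v hv => h1 v hv (h2 v hv)
  mp := fun _ _ h1 h2 M => h1 M (h2 M)
  nec := fun _ h M v _ => h (M.at v)
  subst := by
    intro s a h M
    rw [sat_subst]
    exact h { M with V := fun i w => Sat M.R M.V (s i) w }

theorem normal_inter {L₁ L₂ : Set Form} (h₁ : Normal L₁) (h₂ : Normal L₂) : Normal (L₁ ∩ L₂) where
  taut := fun a ha => ⟨h₁.taut a ha, h₂.taut a ha⟩
  axK := ⟨h₁.axK, h₂.axK⟩
  mp := fun a b h1 h2 => ⟨h₁.mp a b h1.1 h2.1, h₂.mp a b h1.2 h2.2⟩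
  nec := fun a h => ⟨h₁.nec a h.1, h₂.nec a h.2⟩
  subst := fun s a h => ⟨h₁.subst s a h.1, h₂.subst s a h.2⟩

/-- the logic of a frame -/
def Lg {W : Type} (R : W → W → Prop) : Set Form := {a | ∀ V w, Sat R V a w}

theorem Lg_normal {W : Type} (R : W → W → Prop) : Normal (Lg R) where
  taut := fun _ ha V w => ha (fun b => Sat R V b w) (fun h => h) (fun _ _ => Iff.rfl)
  axK := fun _ _ h1 h2 v hv => h1 v hv (h2 v hv)
  mp := fun _ _ h1 h2 V w => h1 V w (h2 V w)
  nec := fun _ h V _ v _ => h V v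
  subst := by
    intro s a h V w
    rw [sat_subst]
    exact h _ w

section comb
variable {L : Set Form} (hL : Normal L) (hD : dia top ∈ L)
include hL hD

/-- `¬ δ` belongs to every normal extension of `KD` -/
theorem neg_delta : neg delta ∈ L := by
  have h1 : imp (box bot) (box (neg top)) ∈ L := by
    refine mp1 hL (hL.mp _ _ (memK hL bot (neg top)) (hL.nec _ ?_)) fun v _ h => h
    exact mem_taut hL fun v hv => (hv.2 _ _).2 fun h => absurd h hv.1
  have h2 : neg (box bot) ∈ L := mp2 hL h1 hD fun v hv h3 h4 => by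
    unfold dia at h4
    rw [bv_neg hv] at h4 ⊢
    rw [hv.2] at h3
    exact fun h5 => h4 (h3 h5)
  refine mp2 hL hD (hL.nec _ h2) fun v hv h3 h4 => ?_
  unfold delta
  rw [bv_neg hv, hv.2]
  intro h5
  have h6 := h5 h3
  unfold dia at h6
  rw [bv_neg hv] at h6
  exact h6 h4

/-- **The Kripke criterion passes to the intersection.** -/
theorem comb_criterion (hK : KripkeCriterion.{u} L) : KripkeCriterion.{u} (GLf ∩ L) := by
  intro a b
  refine ⟨?_, not_hasInterpolant⟩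
  intro hno
  have hδ := neg_delta hL hD
  by_cases h1 : glSys.Sep (a.vars ∩ b.vars) (fun M => glSys.s M a) (fun M => ¬ glSys.s M b)
  · by_cases h2 : HasInterpolant L a b
    · exfalso
      obtain ⟨c, hc1, hc2, hc3⟩ := h1
      obtain ⟨d, hd1, hd2, hd3⟩ := h2
      apply hno
      refine ⟨Form.or (Form.and delta c) (Form.and (neg delta) d), ?_, ⟨?_, ?_⟩, ⟨?_, ?_⟩⟩
      · rw [vars_or, vars_and, vars_and, vars_neg, vars_delta, Set.empty_union, Set.empty_union]
        exact Set.union_subset hc1 hd1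
      · intro M h
        exact sat_or.2 (Or.inl (sat_and.2 ⟨delta_gl M, hc2 M h⟩))
      · refine mp2 hL hδ hd2 fun v hv h3 h4 => ?_
        rw [hv.2] at h4 ⊢
        rw [bv_or hv, bv_and hv, bv_and hv]
        exact fun h5 => Or.inr ⟨h3, h4 h5⟩
      · intro M h
        rcases sat_or.1 h with h | h
        · by_contra hb
          exact hc3 M hb (sat_and.1 h).2
        · exact absurd (delta_gl M) (sat_and.1 h).1
      · refine mp2 hL hδ hd3 fun v hv h3 h4 => ?_
        rw [hv.2] at h4 ⊢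
        rw [bv_or hv, bv_and hv, bv_and hv]
        rw [bv_neg hv] at h3
        rintro (h5 | h5)
        · exact absurd h5.1 h3
        · exact h4 h5.2
    · obtain ⟨W₁, W₂, R₁, V₁, x₁, R₂, V₂, x₂, Z, hF₁, hF₂, h3⟩ := (hK a b).1 h2
      exact ⟨W₁, W₂, R₁, V₁, x₁, R₂, V₂, x₂, Z, fun c hc => hF₁ c hc.2, fun c hc => hF₂ c hc.2, h3⟩
  · obtain ⟨M, hM1, hM2⟩ := gl_interpolation h1
    have hF : FrameFor (GLf ∩ L) (upR.{u} M.R) := by
      intro c hc V w
      rw [sat_up]
      exact hc.1 { M with V := fun i w => V i (ULift.up w), w := w.down }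
    refine ⟨ULift M.W, ULift M.W, upR M.R, fun i z => M.V i z.down, ULift.up M.w,
      upR M.R, fun i z => M.V i z.down, ULift.up M.w, fun z z' => z.down = z'.down,
      hF, hF, bisim_up (Z := fun z z' => z = z') ⟨?_, ?_, ?_⟩, rfl, ?_, ?_⟩
    · rintro z z' rfl i _; exact Iff.rfl
    · rintro z z' z'' rfl h; exact ⟨z'', h, rfl⟩
    · rintro z z' z'' rfl h; exact ⟨z'', h, rfl⟩
    · rw [sat_up]; exact hM1
    · rw [sat_up]; exact hM2

theorem comb_dloeb : dloeb ∈ GLf ∩ L := by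
  refine ⟨dloeb_mem.1, ?_⟩
  refine mp1 hL (neg_delta hL hD) fun v hv h3 => ?_
  unfold dloeb
  rw [hv.2]
  rw [bv_neg hv] at h3
  exact fun h => absurd h h3

/-- **The intersection is not strongly Kripke complete.** -/
theorem comb_not_strong : ¬ StronglyKripkeComplete.{u} (GLf ∩ L) := by
  intro h
  have hcons : Consistent (GLf ∩ L) Gam := by
    intro l hl hmem
    obtain ⟨n, hn⟩ : ∃ n : ℕ, ∀ i, stepF i ∈ l → i < n := by
      have hf : {i : ℕ | stepF i ∈ l}.Finite := by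
        have hinj : Set.InjOn stepF {i : ℕ | stepF i ∈ l} := by
          intro i _ j _ hij
          have h1 : box (imp (var i) (dia (var (i + 1)))) = box (imp (var j) (dia (var (j + 1)))) :=
            hij
          injection h1 with h2
          injection h2 with h3 _
          injection h3
        exact Set.Finite.of_injOn (t := {a | a ∈ l}) (fun i hi => hi) hinj l.finite_toSet
      obtain ⟨n, hn⟩ := hf.bddAbove
      exact ⟨n + 1, fun i hi => Nat.lt_succ_of_le (hn hi)⟩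
    let M : GLModel :=
      { W := Fin (n + 3)
        fin := inferInstance
        R := fun x y => x < y
        trans := fun x y z => lt_trans
        irr := fun x => lt_irrefl x
        V := fun i y => y.val = i + 1
        w := 0 }
    have key : ∀ a, a ∈ l → Sat M.R M.V a M.w := by
      intro a ha
      rcases hl a ha with rfl | rfl | ⟨i, rfl⟩
      · exact delta_gl M
      · refine sat_dia.2 ⟨(⟨1, by omega⟩ : Fin (n + 3)), ?_, rfl⟩
        exact Fin.mk_lt_mk.2 (by omega : 0 < 1)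
      · intro v _ hv
        have hi := hn i ha
        have hv' : v.val = i + 1 := hv
        refine sat_dia.2 ⟨(⟨i + 2, by omega⟩ : Fin (n + 3)), ?_, rfl⟩
        change v < (⟨i + 2, by omega⟩ : Fin (n + 3))
        rw [Fin.lt_def, hv']
        change i + 1 < i + 2
        omega
    have key2 : ∀ l' : List Form, (∀ a, a ∈ l' → Sat M.R M.V a M.w) →
        Sat M.R M.V (l'.foldr imp bot) M.w → False := by
      intro l'
      induction l' with
      | nil => intro _ h; exact h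
      | cons a l' ih =>
        intro h1 h2
        exact ih (fun b hb => h1 b (by simp [hb])) (h2 (h1 a (by simp)))
    exact key2 l key (hmem.1 M)
  obtain ⟨W, R, V, x, hF, hx⟩ := h Gam hcons
  have h1 : Sat R V delta x := hx _ (Or.inl rfl)
  have h2 : Sat R V (dia (var 0)) x := hx _ (Or.inr (Or.inl rfl))
  have h3 : ∀ i, Sat R V (stepF i) x := fun i => hx _ (Or.inr (Or.inr ⟨i, rfl⟩))
  have h4 := hF dloeb (comb_dloeb hL hD) (fun _ y => ¬ ∃ i, V i y) x
  have h5 : Sat R (fun _ y => ¬ ∃ i, V i y) delta x :=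
    (sat_letterless R V _ delta (by rw [vars_delta]) x).1 h1
  have h6 := h4 h5 (by
    intro y hy hbox
    rintro ⟨i, hi⟩
    obtain ⟨z, hz1, hz2⟩ := sat_dia.1 (h3 i y hy hi)
    exact hbox z hz1 ⟨i + 1, hz2⟩)
  obtain ⟨y, hy1, hy2⟩ := sat_dia.1 h2
  exact h6 y hy1 ⟨0, hy2⟩

/-- `L` is determined by the intersection -/
theorem comb_mem (a : Form) : imp (neg delta) a ∈ GLf ∩ L ↔ a ∈ L := by
  constructor
  · intro h
    exact hL.mp _ _ h.2 (neg_delta hL hD)
  · intro h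
    refine ⟨fun M h1 => absurd (delta_gl M) h1, mp1 hL h fun v hv h3 => ?_⟩
    rw [hv.2]
    exact fun _ => h3

end comb

/-! ### The family -/

/-- the frame of a set `S`: two points `(m, i, true)` and `(m, i, false)` at every time `i` of the
line `m`; the first one can be reached only if `m ∈ S` and `i = 1` or `i = m + 2` -/
def RS (S : Set ℕ) (x y : ℕ × ℕ × Bool) : Prop :=
  y.1 = x.1 ∧ y.2.1 = x.2.1 + 1 ∧ (y.2.2 = true → x.1 ∈ S ∧ (x.2.1 = 0 ∨ x.2.1 = x.1 + 1))

/-- the extension of `KD ⊕ alt 3` -/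
def LS (S : Set ℕ) : Set Form := Lg (RS S) ∩ Lg c3

theorem LS_normal (S : Set ℕ) : Normal (LS S) := normal_inter (Lg_normal _) (Lg_normal _)

theorem LS_D (S : Set ℕ) : dia top ∈ LS S :=
  ⟨fun V x => sat_dia.2 ⟨(x.1, x.2.1 + 1, false), ⟨rfl, rfl, fun h => by simp at h⟩, sat_top⟩,
    fun V w => sat_dia.2 ⟨0, trivial, sat_top⟩⟩

theorem LS_alt (S : Set ℕ) : alt 3 ∈ LS S := by
  refine ⟨fun V x => alt_valid 3 fun f hf hinj => ?_, fun V w => alt_valid 3 fun f hf hinj => ?_⟩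
  · have h1 : Function.Injective fun i => (f i).2.2 := by
      intro i j hij
      apply hinj
      obtain ⟨a1, a2, -⟩ := hf i
      obtain ⟨b1, b2, -⟩ := hf j
      exact Prod.ext (a1.trans b1.symm) (Prod.ext (a2.trans b2.symm) hij)
    have h2 := Fintype.card_le_of_injective _ h1
    simp at h2
  · have h2 := Fintype.card_le_of_injective _ hinj
    simp at h2

/-- branching -/
def bran : Form := Form.and (dia (var 0)) (dia (neg (var 0)))

/-- `◇^k a` -/
def diak : ℕ → Form → Form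
  | 0, a => a
  | k + 1, a => dia (diak k a)

theorem sat_bran {S : Set ℕ} {V : ℕ → ℕ × ℕ × Bool → Prop} {x : ℕ × ℕ × Bool}
    (h : Sat (RS S) V bran x) : x.1 ∈ S ∧ (x.2.1 = 0 ∨ x.2.1 = x.1 + 1) := by
  obtain ⟨h1, h2⟩ := sat_and.1 h
  obtain ⟨y, ⟨y1, y2, y3⟩, hy⟩ := sat_dia.1 h1
  obtain ⟨z, ⟨z1, z2, z3⟩, hz⟩ := sat_dia.1 h2
  by_cases hyt : y.2.2 = true
  · exact y3 hyt
  · by_cases hzt : z.2.2 = true
    · exact z3 hzt
    · exfalso
      have h3 : y = z := by
        refine Prod.ext (y1.trans z1.symm) (Prod.ext (y2.trans z2.symm) ?_)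
        rw [Bool.not_eq_true] at hyt hzt
        rw [hyt, hzt]
      exact hz (h3 ▸ hy)

theorem sat_diak {S : Set ℕ} {V : ℕ → ℕ × ℕ × Bool → Prop} {a : Form} (k : ℕ) :
    ∀ x : ℕ × ℕ × Bool, Sat (RS S) V (diak k a) x →
      ∃ y : ℕ × ℕ × Bool, y.1 = x.1 ∧ y.2.1 = x.2.1 + k ∧ Sat (RS S) V a y := by
  induction k with
  | zero => intro x h; exact ⟨x, rfl, rfl, h⟩
  | succ k ih =>
    intro x h
    obtain ⟨y, ⟨y1, y2, -⟩, hy⟩ := sat_dia.1 h
    obtain ⟨z, z1, z2, hz⟩ := ih y hy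
    exact ⟨z, z1.trans y1, by omega, hz⟩

theorem sat_diak_of {S : Set ℕ} {V : ℕ → ℕ × ℕ × Bool → Prop} {a : Form} (m : ℕ) (k : ℕ) :
    ∀ i : ℕ, Sat (RS S) V a (m, i + k, false) → Sat (RS S) V (diak k a) (m, i, false) := by
  induction k with
  | zero => intro i h; exact h
  | succ k ih =>
    intro i h
    refine sat_dia.2 ⟨(m, i + 1, false), ⟨rfl, rfl, fun h => by simp at h⟩, ih (i + 1) ?_⟩
    rwa [show i + 1 + k = i + (k + 1) by omega]

/-- a formula which is true at some point of a model only if the relation is not transitive -/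
def ntr : Form := Form.and (box (var 1)) (dia (dia (neg (var 1))))

/-- the formula which tells whether `k ∈ S` -/
def psi (k : ℕ) : Form := neg (Form.and ntr (Form.and bran (diak (k + 1) bran)))

theorem bran_true {S : Set ℕ} {V : ℕ → ℕ × ℕ × Bool → Prop} (hV : ∀ y, V 0 y ↔ y.2.2 = true)
    {m i : ℕ} (hm : m ∈ S) (hi : i = 0 ∨ i = m + 1) (b : Bool) :
    Sat (RS S) V bran (m, i, b) :=
  sat_and.2 ⟨sat_dia.2 ⟨(m, i + 1, true), ⟨rfl, rfl, fun _ => ⟨hm, hi⟩⟩, (hV _).2 rfl⟩,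
    sat_dia.2 ⟨(m, i + 1, false), ⟨rfl, rfl, fun h => by simp at h⟩, by
      rw [sat_neg]
      intro h
      have h1 := (hV _).1 h
      simp at h1⟩⟩

theorem psi_mem (S : Set ℕ) (k : ℕ) : psi k ∈ LS S ↔ k ∉ S := by
  constructor
  · intro h hk
    let V : ℕ → ℕ × ℕ × Bool → Prop := fun i y => if i = 1 then y.2.1 = 1 else y.2.2 = true
    have hV : ∀ y, V 0 y ↔ y.2.2 = true := fun y => by simp [V]
    have hV1 : ∀ y, V 1 y ↔ y.2.1 = 1 := fun y => by simp [V]
    have h1 := h.1 V (k, 0, false)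
    refine h1 (sat_and.2 ⟨sat_and.2 ⟨?_, ?_⟩, sat_and.2 ⟨bran_true hV hk (Or.inl rfl) _,
      sat_diak_of k (k + 1) 0 ?_⟩⟩)
    · rintro y ⟨-, hy, -⟩
      exact (hV1 y).2 hy
    · refine sat_dia.2 ⟨(k, 1, false), ⟨rfl, rfl, fun h => by simp at h⟩,
        sat_dia.2 ⟨(k, 2, false), ⟨rfl, rfl, fun h => by simp at h⟩, ?_⟩⟩
      rw [sat_neg]
      intro h2
      have h3 := (hV1 _).1 h2
      simp at h3
    · exact bran_true hV hk (Or.inr (by omega)) _
  · intro hk
    constructor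
    · intro V x
      rw [psi, sat_neg]
      intro h
      obtain ⟨h1, h2⟩ := sat_and.1 (sat_and.1 h).2
      obtain ⟨a1, a2⟩ := sat_bran h1
      obtain ⟨y, y1, y2, hy⟩ := sat_diak _ _ h2
      obtain ⟨b1, b2⟩ := sat_bran hy
      apply hk
      have : x.1 = k := by omega
      rwa [← this]
    · intro V w
      rw [psi, sat_neg]
      intro h
      obtain ⟨h1, h2⟩ := sat_and.1 (sat_and.1 h).1
      obtain ⟨y, -, hy⟩ := sat_dia.1 h2
      obtain ⟨z, -, hz⟩ := sat_dia.1 hy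
      exact hz (h1 z trivial)

/-- The family of logics. -/
def FF (S : Set ℕ) : Set Form := GLf ∩ LS S

theorem FF_mem (S : Set ℕ) (k : ℕ) : imp (neg delta) (psi k) ∈ FF S ↔ k ∉ S := by
  unfold FF
  rw [comb_mem (LS_normal S) (LS_D S), psi_mem]

theorem FF_injective : Function.Injective FF := by
  intro S T h
  ext k
  have h1 := FF_mem S k
  rw [h, FF_mem T k] at h1
  exact not_iff_not.1 h1.symm

theorem frameFor_c3' (S : Set ℕ) : FrameFor (FF S) (upR.{u} c3) := by
  intro a ha V w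
  rw [sat_up]
  exact ha.2.2 _ _

theorem FF_no_CIP (S : Set ℕ) : ¬ CIP (FF S) := by
  intro h
  have hmem : imp phi₁ (neg phi₂) ∈ FF S := by
    refine ⟨?_, ?_, ?_⟩
    · intro M h1 _
      obtain ⟨h2, _, _, h3⟩ := (by simpa only [phi₁, sat_and] using h1 :
        Sat M.R M.V (dia (Form.and (var 0) (var 1))) M.w ∧
        Sat M.R M.V (dia (Form.and (var 0) (neg (var 1)))) M.w ∧
        Sat M.R M.V (dia (neg (var 0))) M.w ∧ Sat M.R M.V (box (dia top)) M.w)
      obtain ⟨v, hv, _⟩ := sat_dia.1 h2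
      obtain ⟨u, hu1, _, hu3⟩ := GLModel.exists_max M bot (fun h => h v hv)
      obtain ⟨t, ht, _⟩ := sat_dia.1 (h3 u hu1)
      exact hu3 t ht
    · intro V w h1 _
      simp only [phi₁, sat_and, sat_dia, sat_neg, Sat] at h1
      obtain ⟨⟨x, ⟨x1, x2, -⟩, hx1, hx2⟩, ⟨y, ⟨y1, y2, -⟩, hy1, hy2⟩, ⟨z, ⟨z1, z2, -⟩, hz⟩, -⟩ := h1
      have e1 : x.2.2 ≠ y.2.2 := fun e => hy2 ((show x = y from
        Prod.ext (x1.trans y1.symm) (Prod.ext (x2.trans y2.symm) e)) ▸ hx2)
      have e2 : x.2.2 ≠ z.2.2 := fun e => hz ((show x = z from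
        Prod.ext (x1.trans z1.symm) (Prod.ext (x2.trans z2.symm) e)) ▸ hx1)
      have e3 : y.2.2 ≠ z.2.2 := fun e => hz ((show y = z from
        Prod.ext (y1.trans z1.symm) (Prod.ext (y2.trans z2.symm) e)) ▸ hy1)
      revert e1 e2 e3
      cases x.2.2 <;> cases y.2.2 <;> cases z.2.2 <;> simp
    · intro V w h1 h2
      simp only [phi₁, phi₂, sat_and, sat_dia, sat_neg, Sat] at h1 h2
      obtain ⟨⟨x, _, hx1, hx2⟩, ⟨y, _, hy1, hy2⟩, _, _⟩ := h1
      obtain ⟨⟨z, _, hz1, hz2⟩, ⟨t, _, ht1, ht2⟩, _⟩ := h2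
      have e1 : x.val ≠ y.val := fun e => hy2 ((Fin.ext e : x = y) ▸ hx2)
      have e2 : z.val ≠ t.val := fun e => ht2 ((Fin.ext e : z = t) ▸ hz2)
      have e3 : x.val ≠ z.val := fun e => hz1 ((Fin.ext e : x = z) ▸ hx1)
      have e4 : x.val ≠ t.val := fun e => ht1 ((Fin.ext e : x = t) ▸ hx1)
      have e5 : y.val ≠ z.val := fun e => hz1 ((Fin.ext e : y = z) ▸ hy1)
      have e6 : y.val ≠ t.val := fun e => ht1 ((Fin.ext e : y = t) ▸ hy1)
      have := x.isLt
      have := y.isLt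
      have := z.isLt
      have := t.isLt
      omega
  refine not_hasInterpolant (L := FF S) (a := phi₁) (b := neg phi₂) ?_ (h _ _ hmem)
  have hvars : phi₁.vars ∩ (neg phi₂).vars ⊆ {0} := by
    rw [vars_neg, vars_phi₁, vars_phi₂]
    rintro i ⟨h1 | h1, h2 | h2⟩
    · exact h1
    · exact h1
    · exact h2
    · exfalso
      have h1' : i = 1 := h1
      have h2' : i = 2 := h2
      omega
  let V₁ : ℕ → Fin 3 → Prop := fun i x => (i = 0 ∧ x ≠ 2) ∨ (i = 1 ∧ x = 0)
  let V₂ : ℕ → Fin 3 → Prop := fun i x => (i = 0 ∧ x = 0) ∨ (i = 2 ∧ x = 1)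
  have hb : Bisim (phi₁.vars ∩ (neg phi₂).vars) c3 V₁ c3 V₂
      (fun x y => V₁ 0 x ↔ V₂ 0 y) := by
    refine ⟨?_, ?_, ?_⟩
    · intro x y hxy i hi
      have : i = 0 := hvars hi
      subst this
      exact hxy
    · intro x y x' _ _
      by_cases hx : V₁ 0 x'
      · exact ⟨0, trivial, ⟨fun _ => Or.inl ⟨rfl, rfl⟩, fun _ => hx⟩⟩
      · refine ⟨1, trivial, ⟨fun h => absurd h hx, fun h => ?_⟩⟩
        simp [V₂] at h
    · intro x y y' _ _
      by_cases hy : V₂ 0 y'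
      · exact ⟨0, trivial, ⟨fun _ => hy, fun _ => Or.inl ⟨rfl, by simp⟩⟩⟩
      · refine ⟨2, trivial, ⟨fun h => ?_, fun h => absurd h hy⟩⟩
        simp [V₁] at h
  refine ⟨ULift (Fin 3), ULift (Fin 3), upR.{0} c3, fun i z => V₁ i z.down, ULift.up 0,
    upR.{0} c3, fun i z => V₂ i z.down, ULift.up 0, _, frameFor_c3' S, frameFor_c3' S,
    bisim_up hb, ?_, ?_, ?_⟩
  · change V₁ 0 0 ↔ V₂ 0 0
    simp [V₁, V₂]
  · rw [sat_up]
    change Sat c3 V₁ phi₁ 0
    simp only [phi₁, sat_and, sat_dia, sat_neg, Sat]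
    refine ⟨⟨0, trivial, Or.inl ⟨rfl, by simp⟩, Or.inr ⟨rfl, rfl⟩⟩,
      ⟨1, trivial, Or.inl ⟨rfl, by simp⟩, by simp [V₁]⟩, ⟨2, trivial, by simp [V₁]⟩, ?_⟩
    intro v _
    exact ⟨0, trivial, sat_top⟩
  · rw [sat_up]
    change ¬ ¬ Sat c3 V₂ phi₂ 0
    simp only [phi₂, sat_and, sat_dia, sat_neg, Sat, not_not]
    exact ⟨⟨1, trivial, by simp [V₂], Or.inr ⟨rfl, rfl⟩⟩,
      ⟨2, trivial, by simp [V₂], by simp [V₂]⟩, ⟨0, trivial, Or.inl ⟨rfl, rfl⟩⟩⟩

theorem FF_all (S : Set ℕ) : Normal (FF S) ∧ KripkeCriterion.{u} (FF S) ∧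
    ¬ StronglyKripkeComplete.{u} (FF S) ∧ ¬ CIP (FF S) :=
  ⟨normal_inter GLf_normal (LS_normal S),
    comb_criterion (LS_normal S) (LS_D S) (criterion_of_alt (LS_normal S) (LS_alt S)),
    comb_not_strong (LS_normal S) (LS_D S), FF_no_CIP S⟩

end Pool.Agent.Y555.KC
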