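import Pool.Agent.Y555.KC.Comb

/-!
# Reflection of the Kripke criterion and of the Craig interpolation property
-/

set_option autoImplicit false

namespace Pool.Agent.Y555.KC

open H539R3.IEP H539R3.IEP.Form H539R3.KC

universe u

section gen
variable {W : Type u} (R : W → W → Prop) (x : W)

/-- the points reachable from `x` -/
def Gn : Type u := {y : W // Relation.ReflTransGen R x y}

/-- the relation of the generated subframe -/
def gR (y z : Gn R x) : Prop := R y.1 z.1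

variable {R x}

theorem sat_gen {V : ℕ → W → Prop} {V' : ℕ → Gn R x → Prop} (hV : ∀ i y, V' i y ↔ V i y.1)
    (a : Form) : ∀ y : Gn R x, Sat (gR R x) V' a y ↔ Sat R V a y.1 := by
  induction a with
  | var i => intro y; exact hV i y
  | bot => intro y; exact Iff.rfl
  | imp a b iha ihb => intro y; exact imp_congr (iha y) (ihb y)
  | box a ih =>
    intro y
    constructor
    · intro h w hw
      exact (ih ⟨w, y.2.tail hw⟩).1 (h ⟨w, y.2.tail hw⟩ hw)
    · intro h z hz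
      exact (ih z).2 (h z.1 hz)

end gen

section refl
variable {L : Set Form} (hL : Normal L) (hD : dia top ∈ L)
include hL hD

theorem frameFor_gen {W : Type u} {R : W → W → Prop} {x : W} (hF : FrameFor (GLf ∩ L) R)
    {V₀ : ℕ → W → Prop} (hx : Sat R V₀ (neg delta) x) : FrameFor L (gR R x) := by
  intro a ha V' y
  let V : ℕ → W → Prop := fun i w => ∃ h : Relation.ReflTransGen R x w, V' i ⟨w, h⟩
  have hV : ∀ i (y : Gn R x), V' i y ↔ V i y.1 := fun i y => ⟨fun h => ⟨y.2, h⟩, fun ⟨_, h⟩ => h⟩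
  rw [sat_gen hV]
  have hδ : ∀ w, Relation.ReflTransGen R x w → Sat R V (neg delta) w := by
    intro w hw
    induction hw with
    | refl =>
      exact (sat_letterless R V₀ V (neg delta) (by rw [vars_neg, vars_delta]) x).1 hx
    | tail _ hbc ih =>
      exact hF _ ((comb_mem hL hD (box (neg delta))).2 (hL.nec _ (neg_delta hL hD))) V _ ih _ hbc
  exact hF _ ((comb_mem hL hD a).2 ha) V y.1 (hδ _ y.2)

omit hL hD in
theorem vars_and_delta (a : Form) : (Form.and (neg delta) a).vars = a.vars := by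
  rw [vars_and, vars_neg, vars_delta, Set.empty_union]

theorem interp_refl {a b : Form} (h : HasInterpolant (GLf ∩ L) (Form.and (neg delta) a) b) :
    HasInterpolant L a b := by
  obtain ⟨c, h1, h2, h3⟩ := h
  rw [vars_and_delta] at h1
  refine ⟨c, h1, ?_, h3.2⟩
  refine mp2 hL h2.2 (neg_delta hL hD) fun v hv h4 h5 => ?_
  rw [hv.2, bv_and hv] at h4
  rw [hv.2]
  exact fun h6 => h4 ⟨h5, h6⟩

/-- the Kripke criterion is reflected -/
theorem criterion_refl (hK : KripkeCriterion.{u} (GLf ∩ L)) : KripkeCriterion.{u} L := by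
  intro a b
  refine ⟨fun hno => ?_, not_hasInterpolant⟩
  obtain ⟨W₁, W₂, R₁, V₁, x₁, R₂, V₂, x₂, Z, hF₁, hF₂, hZ, hx, ha, hb⟩ :=
    (hK (Form.and (neg delta) a) b).1 fun h => hno (interp_refl hL hD h)
  rw [vars_and_delta] at hZ
  obtain ⟨hδ₁, ha⟩ := sat_and.1 ha
  have hδ₂ : Sat R₂ V₂ (neg delta) x₂ :=
    (hZ.sat (neg delta) (by rw [vars_neg, vars_delta]; exact Set.empty_subset _) x₁ x₂ hx).1 hδ₁
  refine ⟨Gn R₁ x₁, Gn R₂ x₂, gR R₁ x₁, fun i y => V₁ i y.1, ⟨x₁, Relation.ReflTransGen.refl⟩,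
    gR R₂ x₂, fun i y => V₂ i y.1, ⟨x₂, Relation.ReflTransGen.refl⟩, fun y z => Z y.1 z.1,
    frameFor_gen hL hD hF₁ hδ₁, frameFor_gen hL hD hF₂ hδ₂, ⟨?_, ?_, ?_⟩, hx, ?_, ?_⟩
  · intro y z h i hi
    exact hZ.atoms _ _ h i hi
  · intro y z y' h hy
    obtain ⟨w, h1, h2⟩ := hZ.forth _ _ _ h hy
    exact ⟨⟨w, z.2.tail h1⟩, h1, h2⟩
  · intro y z z' h hz
    obtain ⟨w, h1, h2⟩ := hZ.back _ _ _ h hz
    exact ⟨⟨w, y.2.tail h1⟩, h1, h2⟩
  · exact (sat_gen (V' := fun i y => V₁ i y.1) (fun _ _ => Iff.rfl) a _).2 ha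
  · exact (sat_gen (V' := fun i y => V₂ i y.1) (fun _ _ => Iff.rfl) (neg b) _).2 hb

/-- the Craig interpolation property is reflected -/
theorem cip_refl (h : CIP (GLf ∩ L)) : CIP L := by
  intro a b hab
  refine interp_refl hL hD (h _ _ ⟨fun M h1 => ?_, ?_⟩)
  · exact absurd (delta_gl M) (sat_and.1 h1).1
  · refine mp1 hL hab fun v hv h1 => ?_
    rw [hv.2] at h1 ⊢
    rw [bv_and hv]
    exact fun h2 => h1 h2.2

/-- the Craig interpolation property is preserved -/
theorem cip_pres (h : CIP L) : CIP (GLf ∩ L) := by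
  intro a b hab
  have hδ := neg_delta hL hD
  have h1 : glSys.Sep (a.vars ∩ b.vars) (fun M => glSys.s M a) (fun M => ¬ glSys.s M b) := by
    by_contra hn
    obtain ⟨M, hM1, hM2⟩ := gl_interpolation hn
    exact hM2 (hab.1 M hM1)
  obtain ⟨c, hc1, hc2, hc3⟩ := h1
  obtain ⟨d, hd1, hd2, hd3⟩ := h a b hab.2
  refine ⟨Form.or (Form.and delta c) (Form.and (neg delta) d), ?_, ⟨?_, ?_⟩, ⟨?_, ?_⟩⟩
  · rw [vars_or, vars_and, vars_and, vars_neg, vars_delta, Set.empty_union, Set.empty_union]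
    exact Set.union_subset hc1 hd1
  · intro M h
    exact sat_or.2 (Or.inl (sat_and.2 ⟨delta_gl M, hc2 M h⟩))
  · refine mp2 hL hδ hd2 fun v hv h3 h4 => ?_
    rw [hv.2] at h4 ⊢
    rw [bv_or hv, bv_and hv, bv_and hv]
    exact fun h5 => Or.inr ⟨h3, h4 h5⟩
  · intro M h
    rcases sat_or.1 h with h | h
    · by_contra hb
      exact hc3 M hb (sat_and.1 h).2
    · exact absurd (delta_gl M) (sat_and.1 h).1
  · refine mp2 hL hδ hd3 fun v hv h3 h4 => ?_
    rw [hv.2] at h4 ⊢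
    rw [bv_or hv, bv_and hv, bv_and hv]
    rw [bv_neg hv] at h3
    rintro (h5 | h5)
    · exact absurd h5.1 h3
    · exact h4 h5.2

end refl

end Pool.Agent.Y555.KC
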